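import Pool.Agent.L5helper32.GR.Defs

/-!
# The gcd recursion with random residues: one family of residues for all descents
-/

set_option autoImplicit false

open Finset MeasureTheory ProbabilityTheory

namespace Pool.Agent.L5helper32.GR

/-- The recursion of the problem, with `a 1 = 1`, where `T c r` is the residue of `c` modulo `r`: the
gcd of `x = a (n - 1)` and `n ^ p - 1` is replaced by the product of the primes `r` which divide `x`
and for which the residue of `x + (n - 1)` is a root (recall that `x + (n - 1) ≡ n - 1` modulo `r`). -/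
def seq (p : ℕ) (T : ℕ → ℕ → ℕ) : ℕ → ℕ
  | 0 => 0
  | 1 => 1
  | n + 2 => if seq p T (n + 1) = 0 then (n + 2) ^ p - 1
      else seq p T (n + 1) - jump p (T (seq p T (n + 1) + (n + 1))) (seq p T (n + 1))

/-- The descent after the zero `z` ends above all levels of the earlier descents. -/
def WinRun (p : ℕ) (T : ℕ → ℕ → ℕ) (z : ℕ) : Prop :=
  lev p (z - 1) < nextZero p T z ∧ Sv p (lev p z + 2) T (nextZero p T z)

/-- The two forms of a family of residues. -/
def cur (f : ℕ × ℕ → ℕ) (c r : ℕ) : ℕ := f (c, r)

/-- The probability of a property of the family of residues. -/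
noncomputable def Pr {Ω : Type} [MeasurableSpace Ω] (μ : Measure Ω) (T : ℕ × ℕ → Ω → ℕ)
    (A : Set (ℕ × ℕ → ℕ)) : ℝ := μ.real {ω | (fun i => T i ω) ∈ A}

/-- The first zero after `m` is `z`. -/
def FZ (p m z : ℕ) : Set (ℕ × ℕ → ℕ) := {f |
  m < z ∧ seq p (cur f) z = 0 ∧ ∀ n, m < n → n < z → seq p (cur f) n ≠ 0}

/-- One of the first `k` descents from the zero `z` on is not good. -/
def BadK (p : ℕ) (f : ℕ × ℕ → ℕ) : ℕ → ℕ → Prop
  | 0, _ => False
  | k + 1, z => ¬ GoodRun p (cur f) z ∨ BadK p f k (nextZero p (cur f) z)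

end Pool.Agent.L5helper32.GR
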