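import Pool.Agent.L5helper32.GR.Main
import Pool.Agent.L5helper9.GR2Win
import Pool.Agent.L5helper20.GR2Params

set_option autoImplicit false

open Finset MeasureTheory ProbabilityTheory

namespace Pool.Agent.L5helper32.GR

theorem pow_succ_lower {p z : ℕ} (hp : 2 ≤ p) (hz : 1 ≤ z) : z ^ p + 2 * z + 1 ≤ (z + 1) ^ p := by
  induction p, hp using Nat.le_induction with
  | base => nlinarith
  | succ n hn ih =>
    have h1 : (z + 1) ^ (n + 1) = (z + 1) ^ n * z + (z + 1) ^ n := by ring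
    have h2 : z ^ (n + 1) = z ^ n * z := by ring
    have h3 : (z ^ n + 2 * z + 1) * z ≤ (z + 1) ^ n * z := Nat.mul_le_mul_right _ ih
    have h4 : 0 < z ^ n := by positivity
    nlinarith

/-- A descent ends above the earlier levels with probability at least `c`. -/
theorem win {p : ℕ} (hp : p.Prime) : ∃ c : ℝ, 0 < c ∧ ∃ z₁ : ℕ, ∀ z ≥ z₁,
    ∀ {Ω : Type} [MeasurableSpace Ω] (μ : Measure Ω) [IsProbabilityMeasure μ]
      (T : ℕ × ℕ → Ω → ℕ), Res μ T → c ≤ Pr μ T {f | WinRun p (cur f) z} := by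
  have hp1 : 1 ≤ p := hp.one_lt.le
  have hε : (0 : ℝ) < 1 / (8 * p) := by
    have : (0 : ℝ) < p := by exact_mod_cast hp.pos
    positivity
  obtain ⟨C₁, hC₁, hexc⟩ := exc' hp hε
  obtain ⟨c, hc, z₁, hpar⟩ := params' hp hC₁
  refine ⟨c, hc, z₁ + 2, ?_⟩
  intro z hz Ω _ μ _ T h
  obtain ⟨j, y, G, hG, hy, hj, hbound⟩ := hpar z (by omega)
  have hlow := pow_succ_lower (p := p) (z := z) hp.two_le (by omega)
  set Y := lev p z with hY
  have hx : (z + 1) ^ p - 1 = Y - z - 1 := by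
    rw [hY, lev]; omega
  have hlp : lev p (z - 1) = z ^ p + z - 1 := by
    unfold lev
    rw [Nat.sub_add_cancel (by omega : 1 ≤ z)]; omega
  have hη : 0 ≤ C₁ * y * (Y : ℝ) ^ (1 / (8 * p) : ℝ) / G := by positivity
  have hE : ∀ x c, x ≤ Y → y ≤ x → μ.real {ω | ∃ i < y,
      (∀ i' < i, jump p (res T ω c) (x - i') = 1) ∧ G ≤ jump p (res T ω c) (x - i)}
        ≤ C₁ * y * (Y : ℝ) ^ (1 / (8 * p) : ℝ) / G := by
    intro x c hxY hyx
    refine (hexc μ T h x c y G hG hyx).trans ?_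
    have : (x : ℝ) ^ (1 / (8 * p) : ℝ) ≤ (Y : ℝ) ^ (1 / (8 * p) : ℝ) :=
      Real.rpow_le_rpow (by positivity) (by exact_mod_cast hxY) hε.le
    gcongr
  have hmain := main_induction hp h (M := Y + 2) (L := Y) (X := lev p (z - 1) + 1) (y := y) (G := G)
    (by omega) hη hE j ((z + 1) ^ p - 1) Y (by
      rw [hlp]
      omega) (by omega) (by omega)
  have hb := hmain.trans hbound
  have hmeas : MeasurableSet {ω | ¬ (lev p (z - 1) + 1 ≤ fin p (res T ω) ((z + 1) ^ p - 1) Y ∧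
      Sv p (Y + 2) (res T ω) (fin p (res T ω) ((z + 1) ^ p - 1) Y))} :=
    dep_meas h.meas (dep_bad p ((z + 1) ^ p - 1) Y (Y + 2) (lev p (z - 1) + 1) (by omega))
  have hc1 : c ≤ μ.real {ω | ¬ (lev p (z - 1) + 1 ≤ fin p (res T ω) ((z + 1) ^ p - 1) Y ∧
      Sv p (Y + 2) (res T ω) (fin p (res T ω) ((z + 1) ^ p - 1) Y))}ᶜ := by
    rw [probReal_compl_eq_one_sub hmeas]
    linarith
  refine hc1.trans (measureReal_mono ?_ (measure_ne_top _ _))
  intro ω hω
  rw [Set.mem_compl_iff, Set.mem_ofPred_eq, not_not] at hω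
  have e := nextZero_eq hp1 (res T ω) (z := z) (by omega)
  show WinRun p (res T ω) z
  rw [WinRun, e]
  exact ⟨hω.1, hω.2⟩

end Pool.Agent.L5helper32.GR
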