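import Pool.Agent.L5helper32.GR.QRoot
import Pool.Agent.L5helper67.GR2Five
import Pool.Agent.L5helper83.GR2Num

set_option autoImplicit false

open Finset MeasureTheory ProbabilityTheory

namespace Pool.Agent.L5helper32.GR

variable {Ω : Type} [MeasurableSpace Ω] {μ : Measure Ω} [IsProbabilityMeasure μ]
  {T : ℕ × ℕ → Ω → ℕ}

/-- Composite values of `q_p`. -/
theorem win_bad {p : ℕ} (hp : p.Prime) (h5 : 5 ≤ p) (h : Res μ T) : ∃ c : ℝ, 0 < c ∧ ∃ z₁ : ℕ,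
    ∀ z ≥ z₁, ∀ (R : ℕ) (A : Set (ℕ × ℕ → ℕ)), Dep (range (lev p (z - 1) + 1) ×ˢ range R) A →
      c * Pr μ T A ≤ Pr μ T (A ∩ {f | WinRun p (cur f) z ∧
        ¬ QPrime p (cur f (nextZero p (cur f) z)) (nextZero p (cur f) z)}) :=
  win_bad_of hp h (q_root hp h5) (lev_win hp.two_le)

/-- Prime values. -/
theorem win_good {p : ℕ} (hp : p.Prime) (h : Res μ T) : ∃ c : ℝ, 0 < c ∧ ∃ z₁ : ℕ,
    ∀ z ≥ z₁, ∀ (R : ℕ) (A : Set (ℕ × ℕ → ℕ)), Dep (range (lev p (z - 1) + 1) ×ˢ range R) A →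
      c * Pr μ T A ≤ Pr μ T (A ∩ {f | WinRun p (cur f) z ∧
        NPrime (cur f (nextZero p (cur f) z)) (nextZero p (cur f) z) ∧
        QPrime p (cur f (nextZero p (cur f) z)) (nextZero p (cur f) z)}) :=
  win_good_of hp h (q_noroot hp)

end Pool.Agent.L5helper32.GR
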