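import Pool.Agent.L5helper32.GR.Defs
import Pool.Agent.L5helper75.GR.Indep

set_option autoImplicit false

open Finset MeasureTheory ProbabilityTheory

namespace Pool.Agent.L5helper32.GR

theorem dep_meas {ι Ω : Type} [MeasurableSpace Ω] {T : ι → Ω → ℕ} (hm : ∀ i, Measurable (T i))
    {S : Finset ι} {A : Set (ι → ℕ)} (hA : Dep S A) :
    MeasurableSet {ω | (fun i => T i ω) ∈ A} :=
  Pool.Agent.L5helper75.GR.dep_meas hm hA

theorem dep_indep {ι Ω : Type} [MeasurableSpace Ω] {μ : Measure Ω} [IsProbabilityMeasure μ]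
    {T : ι → Ω → ℕ} (hm : ∀ i, Measurable (T i)) (hi : iIndepFun T μ) {S S' : Finset ι}
    (hd : Disjoint S S') {A B : Set (ι → ℕ)} (hA : Dep S A) (hB : Dep S' B) :
    μ.real {ω | (fun i => T i ω) ∈ A ∧ (fun i => T i ω) ∈ B}
      = μ.real {ω | (fun i => T i ω) ∈ A} * μ.real {ω | (fun i => T i ω) ∈ B} :=
  Pool.Agent.L5helper75.GR.dep_indep hm hi hd hA hB

theorem indep_forall {ι Ω : Type} [MeasurableSpace Ω] {μ : Measure Ω} [IsProbabilityMeasure μ]
    {T : ι → Ω → ℕ} (hm : ∀ i, Measurable (T i)) (hi : iIndepFun T μ) (R : Finset ι)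
    (P : ι → ℕ → Prop) :
    μ.real {ω | ∀ i ∈ R, P i (T i ω)} = ∏ i ∈ R, μ.real {ω | P i (T i ω)} :=
  Pool.Agent.L5helper75.GR.indep_forall hm hi R P

end Pool.Agent.L5helper32.GR
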