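import Pool.Agent.L5helper32.GR.Defs
import Pool.Agent.L5helper39.GR.Det

set_option autoImplicit false

open Finset MeasureTheory ProbabilityTheory

namespace Pool.Agent.L5helper32.GR

theorem jump_pos (p : ℕ) (T : ℕ → ℕ) (x : ℕ) : 1 ≤ jump p T x :=
  Pool.Agent.L5helper39.GRDet.jump_pos p T x

theorem jump_dvd (p : ℕ) (T : ℕ → ℕ) {x : ℕ} (hx : x ≠ 0) : jump p T x ∣ x :=
  Pool.Agent.L5helper39.GRDet.jump_dvd p T hx

theorem jump_le (p : ℕ) (T : ℕ → ℕ) {x : ℕ} (hx : x ≠ 0) : jump p T x ≤ x :=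
  Pool.Agent.L5helper39.GRDet.jump_le p T hx

theorem jump_zero (p : ℕ) (T : ℕ → ℕ) : jump p T 0 = 1 :=
  Pool.Agent.L5helper39.GRDet.jump_zero p T

theorem jump_eq_one_iff {p : ℕ} {T : ℕ → ℕ} {x : ℕ} :
    jump p T x = 1 ↔ ∀ r, r.Prime → r ∣ x → x ≠ 0 → ¬ Root p r (T r) :=
  Pool.Agent.L5helper39.GRDet.jump_eq_one_iff 

/-- If `jump ≥ 2`, there is a prime which divides `x` and has a root as residue. -/
theorem exists_root_of_jump {p : ℕ} {T : ℕ → ℕ} {x : ℕ} (h : 2 ≤ jump p T x) :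
    ∃ r, r.Prime ∧ r ∣ x ∧ Root p r (T r) :=
  Pool.Agent.L5helper39.GRDet.exists_root_of_jump h

theorem fin_zero (p : ℕ) (T : ℕ → ℕ → ℕ) (c : ℕ) : fin p T 0 c = c :=
  Pool.Agent.L5helper39.GRDet.fin_zero p T c

theorem fin_step (p : ℕ) (T : ℕ → ℕ → ℕ) {x : ℕ} (hx : x ≠ 0) (c : ℕ) :
    fin p T x c = fin p T (x - jump p (T c) x) (c + 1 - jump p (T c) x) :=
  Pool.Agent.L5helper39.GRDet.fin_step p T hx c

theorem fin_run (p : ℕ) (T : ℕ → ℕ → ℕ) {x c i : ℕ} (hi : i ≤ x)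
    (h : ∀ i' < i, jump p (T c) (x - i') = 1) : fin p T x c = fin p T (x - i) c :=
  Pool.Agent.L5helper39.GRDet.fin_run p T hi h

theorem fin_of_Sv (p : ℕ) (T : ℕ → ℕ → ℕ) {x c M : ℕ} (hx : x ≤ M) (h : Sv p M T c) :
    fin p T x c = c :=
  Pool.Agent.L5helper39.GRDet.fin_of_Sv p T hx h

theorem exists_kill {p : ℕ} {T : ℕ → ℕ} {x y r : ℕ} (hr : r.Prime) (hry : r ≤ y) (hyx : y ≤ x)
    (hroot : Root p r (T r)) :
    ∃ i < y, (∀ i' < i, jump p T (x - i') = 1) ∧ 2 ≤ jump p T (x - i) :=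
  Pool.Agent.L5helper39.GRDet.exists_kill hr hry hyx hroot

theorem fin_le (p : ℕ) (T : ℕ → ℕ → ℕ) (x c : ℕ) : fin p T x c ≤ c :=
  Pool.Agent.L5helper39.GRDet.fin_le p T x c

theorem fin_congr (p : ℕ) {T T' : ℕ → ℕ → ℕ} {x c : ℕ}
    (h : ∀ c' ≤ c, ∀ r ≤ x, T c' r = T' c' r) : fin p T x c = fin p T' x c :=
  Pool.Agent.L5helper39.GRDet.fin_congr p h

theorem dep_bad (p x c M X : ℕ) (hx : x ≤ M) :
    Dep (range (c + 1) ×ˢ range (M + 1)) {f : ℕ × ℕ → ℕ |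
      ¬ (X ≤ fin p (fun c r => f (c, r)) x c ∧
        Sv p M (fun c r => f (c, r)) (fin p (fun c r => f (c, r)) x c))} :=
  Pool.Agent.L5helper39.GRDet.dep_bad p x c M X hx

end Pool.Agent.L5helper32.GR
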