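import Pool.Agent.L5helper32.GR.Roots
import Pool.Agent.L5helper32.GR.Det
import Pool.Agent.L5helper9.GRExc
import Pool.Agent.L5helper97.GRExc

set_option autoImplicit false

open Finset MeasureTheory ProbabilityTheory

namespace Pool.Agent.L5helper32.GR

/-- `(1 + p) ^ ω(n) ≤ C n ^ (1/4)`. -/
theorem omega_bound (p : ℕ) : ∃ C : ℝ, 0 < C ∧ ∀ n : ℕ, 1 ≤ n →
    ((1 + p : ℕ) : ℝ) ^ (#n.primeFactors) ≤ C * (n : ℝ) ^ (1 / 4 : ℝ) :=
  Pool.Agent.L5helper9.GRExc.omega_bound p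

/-- A large jump at a given place has a small probability. -/
theorem prob_jump {p : ℕ} (hp : p.Prime) {Ω : Type} [MeasurableSpace Ω] {μ : Measure Ω}
    [IsProbabilityMeasure μ] {T : ℕ × ℕ → Ω → ℕ} (h : Res μ T) (c n G : ℕ) (hG : 1 ≤ G) :
    μ.real {ω | G ≤ jump p (res T ω c) n} ≤ ((1 + p : ℕ) : ℝ) ^ (#n.primeFactors) / G :=
  Pool.Agent.L5helper9.GRExc.prob_jump_of (fun c R hR => prob_all h p c R hR)
    (fun _ hr => w_le hp hr) c n G hG

/-- The first jump is large with small probability. -/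
theorem exc {p : ℕ} (hp : p.Prime) : ∃ C : ℝ, 0 < C ∧
    ∀ {Ω : Type} [MeasurableSpace Ω] (μ : Measure Ω) [IsProbabilityMeasure μ]
      (T : ℕ × ℕ → Ω → ℕ), Res μ T → ∀ x c y G : ℕ, 1 ≤ G → x < G ^ 2 → y ≤ x →
      μ.real {ω | ∃ i < y, (∀ i' < i, jump p (res T ω c) (x - i') = 1) ∧
        G ≤ jump p (res T ω c) (x - i)} ≤ (C * (x : ℝ) ^ (3 / 4 : ℝ) + p * y) / G :=
  ExcOf.exc_of omega_bound prob_jump exists_kill prob_root w_le hp

end Pool.Agent.L5helper32.GR
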