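import Pool.Agent.L5helper32.GR.Main
import Pool.Agent.L5helper32.GR.Exc
import Pool.Agent.L5helper32.GR.Param

set_option autoImplicit false

open Finset MeasureTheory ProbabilityTheory

namespace Pool.Agent.L5helper32.GR

theorem lev_lower {p z : ℕ} (hp : 2 ≤ p) : z ^ 2 + 3 * z + 1 ≤ lev p z := by
  unfold lev
  have h : (z + 1) ^ 2 ≤ (z + 1) ^ p := Nat.pow_le_pow_right (by omega) hp
  have e : (z + 1) ^ 2 = z ^ 2 + 2 * z + 1 := by ring
  omega

/-- One descent, in terms of the first level. -/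
theorem one_lev {p : ℕ} (hp : p.Prime) : ∃ C : ℝ, 0 < C ∧ ∃ z₁ : ℕ, ∀ z ≥ z₁,
    ∀ {Ω : Type} [MeasurableSpace Ω] (μ : Measure Ω) [IsProbabilityMeasure μ]
      (T : ℕ × ℕ → Ω → ℕ), Res μ T → μ.real {ω | ¬ GoodRun p (res T ω) z}
        ≤ C * (Real.log (Real.log (lev p z : ℕ)) / Real.log (lev p z : ℕ)) := by
  obtain ⟨C₁, hC₁, hexc⟩ := exc hp
  obtain ⟨C, hC, Y₀, hpar⟩ := params hp C₁
  refine ⟨C, hC, Y₀ + 2, ?_⟩
  intro z hz Ω _ μ _ T h
  have hlow := lev_lower (p := p) (z := z) hp.two_le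
  have hYz : Y₀ ≤ lev p z := by nlinarith
  obtain ⟨j, y, G, hG, hy, hYG, h8, hbound⟩ := hpar (lev p z) hYz
  refine le_trans ?_ hbound
  have hp2 : 1 ≤ p := hp.one_lt.le
  set Y := lev p z with hY
  have hx : (z + 1) ^ p - 1 = Y - z - 1 := by
    have : 1 ≤ (z + 1) ^ p := Nat.one_le_pow _ _ (by omega)
    rw [hY, lev]; omega
  have hη : 0 ≤ (C₁ * (Y : ℝ) ^ (3 / 4 : ℝ) + p * y) / G := by positivity
  have hE : ∀ x c, x ≤ Y → y ≤ x → μ.real {ω | ∃ i < y,
      (∀ i' < i, jump p (res T ω c) (x - i') = 1) ∧ G ≤ jump p (res T ω c) (x - i)}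
        ≤ (C₁ * (Y : ℝ) ^ (3 / 4 : ℝ) + p * y) / G := by
    intro x c hxY hyx
    refine (hexc μ T h x c y G hG (by omega) hyx).trans ?_
    have : (x : ℝ) ^ (3 / 4 : ℝ) ≤ (Y : ℝ) ^ (3 / 4 : ℝ) :=
      Real.rpow_le_rpow (by positivity) (by exact_mod_cast hxY) (by norm_num)
    gcongr
  have hmain := main_induction hp h (M := Y + 2) (L := Y) (X := (Y + 3) / 4) (y := y) (G := G)
    (by omega) hη hE j ((z + 1) ^ p - 1) Y (by
      rw [hx]
      have h9 : z ≥ 2 := by omega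
      have h10 : z * z ≥ 2 * z := by nlinarith
      have h11 : z ^ 2 = z * z := by ring
      omega) (by omega) (by omega)
  refine le_trans (measureReal_mono ?_ (measure_ne_top _ _)) hmain
  intro ω hω hgood
  apply hω
  have e := nextZero_eq hp2 (res T ω) (z := z) (by omega)
  rw [GoodRun, e]
  refine ⟨?_, hgood.2⟩
  have := hgood.1
  rw [← hY]
  omega

theorem loglog_anti {a b : ℝ} (ha : 16 ≤ a) (hab : a ≤ b) :
    Real.log (Real.log b) / Real.log b ≤ Real.log (Real.log a) / Real.log a := by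
  have he : Real.exp 1 < 2.7182818286 := Real.exp_one_lt_d9
  have h16 : Real.exp 1 ≤ Real.log a := by
    have h1 : Real.log 16 ≤ Real.log a := Real.log_le_log (by norm_num) ha
    have h2 : Real.log 16 = 4 * Real.log 2 := by
      rw [show (16 : ℝ) = 2 ^ (4 : ℕ) by norm_num, Real.log_pow]; norm_num
    have h3 : 0.6931471803 < Real.log 2 := Real.log_two_gt_d9
    linarith
  have hb : Real.log a ≤ Real.log b := Real.log_le_log (by linarith) hab
  exact Real.log_div_self_antitoneOn h16 (h16.trans hb) hb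

/-- One descent. -/
theorem one {p : ℕ} (hp : p.Prime) : ∃ C : ℝ, 0 < C ∧ ∀ z ≥ 3,
    ∀ {Ω : Type} [MeasurableSpace Ω] (μ : Measure Ω) [IsProbabilityMeasure μ]
      (T : ℕ × ℕ → Ω → ℕ), Res μ T → μ.real {ω | ¬ GoodRun p (res T ω) z}
        ≤ C * (Real.log (Real.log z) / Real.log z) := by
  obtain ⟨C, hC, z₁, h⟩ := one_lev hp
  have hpos : ∀ z : ℕ, 3 ≤ z → 0 < Real.log (Real.log z) / Real.log z := by
    intro z hz
    have h1 : 1 < Real.log z := by
      rw [Real.lt_log_iff_exp_lt (by positivity)]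
      have he : Real.exp 1 < 2.7182818286 := Real.exp_one_lt_d9
      have : (3 : ℝ) ≤ z := by exact_mod_cast hz
      linarith
    exact div_pos (Real.log_pos h1) (by linarith)
  refine ⟨C + ∑ z ∈ Ico 3 (z₁ + 16), (Real.log (Real.log z) / Real.log z)⁻¹, ?_, ?_⟩
  · have : 0 ≤ ∑ z ∈ Ico 3 (z₁ + 16), (Real.log (Real.log z) / Real.log (z : ℝ))⁻¹ := by
      apply Finset.sum_nonneg
      intro z hz
      exact inv_nonneg.2 (hpos z (Finset.mem_Ico.1 hz).1).le
    linarith
  intro z hz Ω _ μ _ T hT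
  have hS : 0 ≤ ∑ z ∈ Ico 3 (z₁ + 16), (Real.log (Real.log z) / Real.log (z : ℝ))⁻¹ := by
    apply Finset.sum_nonneg
    intro z hz
    exact inv_nonneg.2 (hpos z (Finset.mem_Ico.1 hz).1).le
  rcases lt_or_ge z (z₁ + 16) with hlt | hge
  · have h1 : (Real.log (Real.log z) / Real.log z)⁻¹ ≤
        ∑ z ∈ Ico 3 (z₁ + 16), (Real.log (Real.log z) / Real.log (z : ℝ))⁻¹ := by
      apply Finset.single_le_sum (f := fun z : ℕ => (Real.log (Real.log z) / Real.log (z : ℝ))⁻¹)
      · intro z hz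
        exact inv_nonneg.2 (hpos z (Finset.mem_Ico.1 hz).1).le
      · exact Finset.mem_Ico.2 ⟨hz, hlt⟩
    have h2 : μ.real {ω | ¬ GoodRun p (res T ω) z} ≤ 1 := measureReal_le_one
    have h3 := hpos z hz
    calc μ.real {ω | ¬ GoodRun p (res T ω) z} ≤ 1 := h2
      _ = (Real.log (Real.log z) / Real.log z)⁻¹ * (Real.log (Real.log z) / Real.log z) := by
        rw [inv_mul_cancel₀ h3.ne']
      _ ≤ _ := by
        apply mul_le_mul_of_nonneg_right _ h3.le
        linarith
  · refine (h z (by omega) μ T hT).trans ?_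
    have hz16 : (16 : ℝ) ≤ z := by exact_mod_cast (show 16 ≤ z by omega)
    have hzl : (z : ℝ) ≤ (lev p z : ℕ) := by
      have := lev_lower (p := p) (z := z) hp.two_le
      exact_mod_cast (show z ≤ lev p z by nlinarith)
    have h4 := loglog_anti hz16 hzl
    have h5 := (hpos z hz).le
    calc C * (Real.log (Real.log (lev p z : ℕ)) / Real.log (lev p z : ℕ))
        ≤ C * (Real.log (Real.log z) / Real.log z) := by gcongr
      _ ≤ _ := by
        apply mul_le_mul_of_nonneg_right _ h5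
        linarith

end Pool.Agent.L5helper32.GR
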