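import Pool.Agent.L5helper32.GR.Indep
import Pool.Agent.L5helper37.GR.Roots
import Pool.Agent.L5helper58.GRRoots

set_option autoImplicit false

open Finset MeasureTheory ProbabilityTheory

namespace Pool.Agent.L5helper32.GR

theorem w_pos {p r : ℕ} (hp : p.Prime) (hr : r.Prime) : 1 ≤ w p r :=
  Pool.Agent.L5helper37.GRRoots.w_pos hp hr

theorem w_le {p r : ℕ} (hp : p.Prime) (hr : r.Prime) : w p r ≤ p :=
  Pool.Agent.L5helper37.GRRoots.w_le hp hr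

theorem w_lt {p r : ℕ} (hp : p.Prime) (hr : r.Prime) : w p r < r :=
  Pool.Agent.L5helper37.GRRoots.w_lt hp hr

theorem sg_pos {p : ℕ} (hp : p.Prime) (a b : ℕ) : 0 < sg p a b :=
  Pool.Agent.L5helper37.GRRoots.sg_pos hp a b

theorem sg_le_one {p : ℕ} (hp : p.Prime) (a b : ℕ) : sg p a b ≤ 1 :=
  Pool.Agent.L5helper37.GRRoots.sg_le_one hp a b

variable {Ω : Type} [MeasurableSpace Ω] {μ : Measure Ω} [IsProbabilityMeasure μ]
  {T : ℕ × ℕ → Ω → ℕ}

theorem prob_root (h : Res μ T) (p c : ℕ) {r : ℕ} (hr : r.Prime) :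
    μ.real {ω | Root p r (res T ω c r)} = (w p r : ℝ) / r :=
  Pool.Agent.L5helper58.GRRoots.prob_root h p c hr

theorem prob_none (h : Res μ T) (p c : ℕ) (R : Finset ℕ) (hR : ∀ r ∈ R, r.Prime) :
    μ.real {ω | ∀ r ∈ R, ¬ Root p r (res T ω c r)} = ∏ r ∈ R, (1 - (w p r : ℝ) / r) :=
  Pool.Agent.L5helper58.GRRoots.prob_none h p c R hR

theorem prob_all (h : Res μ T) (p c : ℕ) (R : Finset ℕ) (hR : ∀ r ∈ R, r.Prime) :
    μ.real {ω | ∀ r ∈ R, Root p r (res T ω c r)} = ∏ r ∈ R, ((w p r : ℝ) / r) :=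
  Pool.Agent.L5helper58.GRRoots.prob_all h p c R hR

theorem prob_gap (h : Res μ T) (p c a b : ℕ) :
    μ.real {ω | (∀ r ∈ pr 0 a, ¬ Root p r (res T ω c r)) ∧ ∃ r ∈ pr a b, Root p r (res T ω c r)}
      = sg p 0 a * (1 - sg p a b) :=
  Pool.Agent.L5helper58.GRRoots.prob_gap h p c a b

end Pool.Agent.L5helper32.GR
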