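import Mathlib

/-!
# The gcd recursion with random residues: definitions

After a zero `z` the recursion of the problem has the value `(z + 1) ^ p - 1` at the time `z + 1`, and
then `a n = a (n - 1) - gcd (a (n - 1)) (n ^ p - 1)`.  Let `c = a (n - 1) + (n - 1)` be the *level*.  A
prime `r` divides the gcd if and only if `r` divides `a (n - 1)` and `(c + 1) ^ p ≡ 1` modulo `r`, since
`c ≡ n - 1` modulo `r`.  In the model the gcd is replaced by the product of these primes, and the
residues of the levels modulo the primes are replaced by independent uniform residues.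
-/

set_option autoImplicit false

open Finset MeasureTheory ProbabilityTheory

namespace Pool.Agent.L5helper32.GR

/-- `t` is a root modulo `r`: `(t + 1) ^ p ≡ 1` modulo `r`. -/
def Root (p r t : ℕ) : Prop := (t + 1) ^ p ≡ 1 [MOD r]

instance (p r t : ℕ) : Decidable (Root p r t) := by unfold Root; infer_instance

/-- The number which is subtracted from `x`, if `T r` is the residue of the level modulo `r`: the
product of the primes `r` which divide `x` and for which `T r` is a root. -/
def jump (p : ℕ) (T : ℕ → ℕ) (x : ℕ) : ℕ := ∏ r ∈ x.primeFactors with Root p r (T r), r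

/-- The value of the recursion at the time `z + 1 + i`, after the zero `z`; the residue of the level
`c` modulo `r` is `T c r`. -/
def val (p : ℕ) (T : ℕ → ℕ → ℕ) (z : ℕ) : ℕ → ℕ
  | 0 => (z + 1) ^ p - 1
  | i + 1 => val p T z i - jump p (T (val p T z i + (z + 1 + i))) (val p T z i)

/-- The next zero after the zero `z`. -/
noncomputable def nextZero (p : ℕ) (T : ℕ → ℕ → ℕ) (z : ℕ) : ℕ := z + 1 + sInf {i | val p T z i = 0}

/-- The zeros, beginning with `z₀`; the residues of the levels are chosen anew after every zero: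
`T z c r` is the residue of the level `c` modulo `r` in the descent after the zero `z`. -/
noncomputable def zeros (p : ℕ) (T : ℕ → ℕ → ℕ → ℕ) (z₀ : ℕ) : ℕ → ℕ
  | 0 => z₀
  | k + 1 => nextZero p (T (zeros p T z₀ k)) (zeros p T z₀ k)

/-- The polynomial `q_p`. -/
def q (p n : ℕ) : ℕ := ∑ k ∈ Icc 1 p, p.choose k * n ^ (k - 1)

/-- The number `n` is prime for the residues `T r` of the level `n`: no prime `r` with `r ^ 2 ≤ n`
divides `n`, that is, has the residue `0`. -/
def NPrime (T : ℕ → ℕ) (n : ℕ) : Prop := ∀ r, r.Prime → r ^ 2 ≤ n → T r ≠ 0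

/-- The number `q_p(n)` is prime for the residues `T r` of the level `n`: no prime `r` with
`r ^ 2 ≤ q_p(n)` divides `q_p(T r)`. -/
def QPrime (p : ℕ) (T : ℕ → ℕ) (n : ℕ) : Prop := ∀ r, r.Prime → r ^ 2 ≤ q p n → ¬ r ∣ q p (T r)

/-- One step, for the pairs (value, level). -/
def step (p : ℕ) (T : ℕ → ℕ → ℕ) (s : ℕ × ℕ) : ℕ × ℕ :=
  (s.1 - jump p (T s.2) s.1, s.2 + 1 - jump p (T s.2) s.1)

/-- The last level of the descent from the value `x` in the level `c`. -/
def fin (p : ℕ) (T : ℕ → ℕ → ℕ) (x c : ℕ) : ℕ := ((step p T)^[x] (x, c)).2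

/-- No prime up to `M` has a root as residue of the level `c`. -/
def Sv (p M : ℕ) (T : ℕ → ℕ → ℕ) (c : ℕ) : Prop := ∀ r, r.Prime → r ≤ M → ¬ Root p r (T c r)

/-- The first level after the zero `z`. -/
def lev (p z : ℕ) : ℕ := (z + 1) ^ p + z

/-- The descent after the zero `z` is good: the next zero `n` is at least a quarter of the first level
`(z + 1) ^ p + z`, and no prime up to the first level plus two has a root as residue of `n`. -/
def GoodRun (p : ℕ) (T : ℕ → ℕ → ℕ) (z : ℕ) : Prop :=
  lev p z ≤ 4 * nextZero p T z ∧ Sv p (lev p z + 2) T (nextZero p T z)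

/-- A property of families of residues depends only on the residues with indices in `S`. -/
def Dep {ι : Type} (S : Finset ι) (A : Set (ι → ℕ)) : Prop :=
  ∀ f g : ι → ℕ, (∀ i ∈ S, f i = g i) → (f ∈ A ↔ g ∈ A)

/-- The number of roots modulo `r`. -/
def w (p r : ℕ) : ℕ := #{t ∈ range r | Root p r t}

/-- The primes in `(a, b]`. -/
def pr (a b : ℕ) : Finset ℕ := (Ioc a b).filter Nat.Prime

/-- The probability that there is no root for the primes in `(a, b]`. -/
noncomputable def sg (p a b : ℕ) : ℝ := ∏ r ∈ pr a b, (1 - (w p r : ℝ) / r)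

/-- Independent uniform residues `T (c, r)` of the levels `c` modulo the primes `r`. -/
structure Res {Ω : Type} [MeasurableSpace Ω] (μ : Measure Ω) (T : ℕ × ℕ → Ω → ℕ) : Prop where
  meas : ∀ i, Measurable (T i)
  indep : iIndepFun T μ
  unif : ∀ c r : ℕ, r.Prime → ∀ t < r, μ.real {ω | T (c, r) ω = t} = 1 / r

/-- The residues as a function of the level and the prime. -/
def res {Ω : Type} (T : ℕ × ℕ → Ω → ℕ) (ω : Ω) (c r : ℕ) : ℕ := T (c, r) ω

/-- The model: independent uniform residues `T (z, c, r)` of the levels `c` modulo the primes `r`, for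
the descent after the zero `z`. -/
structure Model {Ω : Type} [MeasurableSpace Ω] (μ : Measure Ω) (T : ℕ × ℕ × ℕ → Ω → ℕ) : Prop where
  meas : ∀ i, Measurable (T i)
  indep : iIndepFun T μ
  unif : ∀ z c r : ℕ, r.Prime → ∀ t < r, μ.real {ω | T (z, c, r) ω = t} = 1 / r

/-- The residues of the model as a function of the zero, the level and the prime. -/
def mres {Ω : Type} (T : ℕ × ℕ × ℕ → Ω → ℕ) (ω : Ω) (z c r : ℕ) : ℕ := T (z, c, r) ω

end Pool.Agent.L5helper32.GR
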