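import Pool.Agent.L5helper32.GR.Roots
import Pool.Agent.L5helper32.GR.Next

set_option autoImplicit false

open Finset MeasureTheory ProbabilityTheory

namespace Pool.Agent.L5helper32.GR

/-- The first jump in the level `c`, from the value `x`, is at the place `i` and it is `g`; and a prime
up to `y` has a root as residue. -/
def KS (p c x y i g : ℕ) : Set (ℕ × ℕ → ℕ) := {f |
  (∀ i' < i, jump p (fun r => f (c, r)) (x - i') = 1) ∧ jump p (fun r => f (c, r)) (x - i) = g ∧
    ∃ r ∈ pr 0 y, Root p r (f (c, r))}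

/-- The descent from the value `x` in the level `c` is bad. -/
def BS (p M X x c : ℕ) : Set (ℕ × ℕ → ℕ) := {f |
  ¬ (X ≤ fin p (fun c r => f (c, r)) x c ∧
    Sv p M (fun c r => f (c, r)) (fin p (fun c r => f (c, r)) x c))}

/-- There is no root up to `y`, but one up to `M`. -/
def E1 (p M c y : ℕ) : Set (ℕ × ℕ → ℕ) := {f |
  (∀ r ∈ pr 0 y, ¬ Root p r (f (c, r))) ∧ ∃ r ∈ pr y M, Root p r (f (c, r))}

/-- The first jump is large. -/
def E2 (p c x y G : ℕ) : Set (ℕ × ℕ → ℕ) := {f |
  ∃ i < y, (∀ i' < i, jump p (fun r => f (c, r)) (x - i') = 1) ∧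
    G ≤ jump p (fun r => f (c, r)) (x - i)}

theorem jump_congr {p : ℕ} {T T' : ℕ → ℕ} {x : ℕ} (h : ∀ r ≤ x, T r = T' r) :
    jump p T x = jump p T' x := by
  unfold jump
  apply Finset.prod_congr _ fun _ _ => rfl
  apply Finset.filter_congr
  intro r hr
  rw [h r (Nat.le_of_mem_primeFactors hr)]

theorem dep_KS {p c x y i g M : ℕ} (hx : x ≤ M) (hy : y ≤ M) :
    Dep (({c} : Finset ℕ) ×ˢ range (M + 1)) (KS p c x y i g) := by
  intro f f' hff
  have h1 : ∀ r ≤ M, f (c, r) = f' (c, r) := fun r hr =>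
    hff (c, r) (by simp; omega)
  have h2 : ∀ t ≤ M, jump p (fun r => f (c, r)) t = jump p (fun r => f' (c, r)) t := fun t ht =>
    jump_congr fun r hr => h1 r (hr.trans ht)
  have h3 : (∃ r ∈ pr 0 y, Root p r (f (c, r))) ↔ ∃ r ∈ pr 0 y, Root p r (f' (c, r)) := by
    apply exists_congr; intro r
    apply and_congr_right; intro hr
    have : r ≤ y := by
      simp only [pr, mem_filter, mem_Ioc] at hr; exact hr.1.2
    rw [h1 r (this.trans hy)]
  simp only [KS, Set.mem_ofPred_eq, h3]
  rw [h2 (x - i) (by omega)]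
  have h4 : (∀ i' < i, jump p (fun r => f (c, r)) (x - i') = 1) ↔
      ∀ i' < i, jump p (fun r => f' (c, r)) (x - i') = 1 := by
    apply forall_congr'; intro i'
    rw [h2 (x - i') (by omega)]
  rw [h4]

theorem decomp {p M X x c y G : ℕ} (hXx : X ≤ x) (hxc : x ≤ c) (hxM : x ≤ M) (hy : y + G ≤ x) :
    BS p M X x c ⊆ E1 p M c y ∪ (E2 p c x y G ∪
      ⋃ ig ∈ range y ×ˢ Ico 2 G, (KS p c x y ig.1 ig.2 ∩ BS p M X (x - ig.1 - ig.2) (c + 1 - ig.2))) := by
  intro f hf
  by_cases h1 : ∃ r ∈ pr 0 y, Root p r (f (c, r))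
  · right
    obtain ⟨r, hr, hroot⟩ := h1
    have hr' := hr
    simp only [pr, mem_filter, mem_Ioc] at hr'
    obtain ⟨i, hiy, hi1, hi2⟩ := exists_kill (p := p) (T := fun r => f (c, r)) (x := x) (y := y)
      hr'.2 hr'.1.2 (by omega) hroot
    by_cases hG : G ≤ jump p (fun r => f (c, r)) (x - i)
    · left; exact ⟨i, hiy, hi1, hG⟩
    · right
      push Not at hG
      simp only [Set.mem_iUnion]
      refine ⟨(i, jump p (fun r => f (c, r)) (x - i)), ?_, ?_, ?_⟩
      · simp only [mem_product, mem_range, mem_Ico]; exact ⟨hiy, hi2, hG⟩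
      · exact ⟨hi1, rfl, r, hr, hroot⟩
      · have e1 := fin_run p (fun c r => f (c, r)) (x := x) (c := c) (i := i) (by omega) hi1
        have e2 := fin_step p (fun c r => f (c, r)) (x := x - i) (by omega) c
        simp only [BS, Set.mem_ofPred_eq] at hf ⊢
        rw [e1, e2] at hf
        exact hf
  · push Not at h1
    left
    refine ⟨h1, ?_⟩
    by_contra h2
    push Not at h2
    have hS : Sv p M (fun c r => f (c, r)) c := by
      intro r hr hrM
      rcases le_or_gt r y with h | h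
      · exact h1 r (by simp only [pr, mem_filter, mem_Ioc]; exact ⟨⟨hr.pos, h⟩, hr⟩)
      · exact h2 r (by simp only [pr, mem_filter, mem_Ioc]; exact ⟨⟨h, hrM⟩, hr⟩)
    have e1 := fin_of_Sv p (fun c r => f (c, r)) (x := x) (c := c) (M := M) hxM hS
    apply hf
    rw [e1]
    exact ⟨by omega, hS⟩

variable {Ω : Type} [MeasurableSpace Ω] {μ : Measure Ω} [IsProbabilityMeasure μ]
  {T : ℕ × ℕ → Ω → ℕ}

theorem sum_KS {p : ℕ} (h : Res μ T) {M c x y G : ℕ} (hx : x ≤ M) (hy : y ≤ M) :
    ∑ ig ∈ range y ×ˢ Ico 2 G, μ.real {ω | (fun i => T i ω) ∈ KS p c x y ig.1 ig.2}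
      ≤ 1 - sg p 0 y := by
  have hmeas : ∀ ig : ℕ × ℕ, MeasurableSet {ω | (fun i => T i ω) ∈ KS p c x y ig.1 ig.2} :=
    fun ig => dep_meas h.meas (dep_KS hx hy)
  rw [← measureReal_biUnion_finset]
  · have h1 : μ.real {ω | ∀ r ∈ pr 0 y, ¬ Root p r (res T ω c r)} = sg p 0 y := by
      rw [prob_none h p c (pr 0 y) (fun r hr => (mem_filter.1 hr).2)]; rfl
    have h2 : MeasurableSet {ω | ∀ r ∈ pr 0 y, ¬ Root p r (res T ω c r)} := by
      have : Dep (({c} : Finset ℕ) ×ˢ range (M + 1))
          {f : ℕ × ℕ → ℕ | ∀ r ∈ pr 0 y, ¬ Root p r (f (c, r))} := by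
        intro f f' hff
        simp only [Set.mem_ofPred_eq]
        apply forall_congr'; intro r
        apply imp_congr_right; intro hr
        have hr2 : r ≤ y := by
          simp only [pr, mem_filter, mem_Ioc] at hr; exact hr.1.2
        rw [hff (c, r) (by simp; omega)]
      exact dep_meas h.meas this
    rw [← h1, ← probReal_compl_eq_one_sub h2]
    apply measureReal_mono
    · intro ω hω
      simp only [Set.mem_iUnion] at hω
      obtain ⟨ig, _, hig⟩ := hω
      intro hno
      obtain ⟨r, hr, hroot⟩ := hig.2.2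
      exact hno r hr hroot
    · exact measure_ne_top _ _
  · intro ig hig ig' hig' hne
    rw [Function.onFun, Set.disjoint_left]
    intro ω h1 h2
    have a1 := h1.1; have a2 := h1.2.1
    have b1 := h2.1; have b2 := h2.2.1
    simp only [coe_product, Set.mem_prod, mem_coe, mem_range, mem_Ico] at hig hig'
    rcases lt_trichotomy ig.1 ig'.1 with hlt | heq | hgt
    · have := b1 ig.1 hlt
      rw [a2] at this; omega
    · apply hne
      have : ig.2 = ig'.2 := by rw [← a2, ← b2, heq]
      exact Prod.ext heq this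
    · have := a1 ig'.1 hgt
      rw [b2] at this; omega
  · intro ig _; exact hmeas ig

theorem main_induction {p : ℕ} (hp : p.Prime) (h : Res μ T) {M L X y G : ℕ} (hLM : L ≤ M) {η : ℝ}
    (hη : 0 ≤ η)
    (hE : ∀ x c, x ≤ L → y ≤ x → μ.real {ω | ∃ i < y, (∀ i' < i, jump p (res T ω c) (x - i') = 1) ∧
        G ≤ jump p (res T ω c) (x - i)} ≤ η) :
    ∀ j x c : ℕ, X + j * (y + G) ≤ x → x ≤ c → x ≤ L →
      μ.real {ω | ¬ (X ≤ fin p (res T ω) x c ∧ Sv p M (res T ω) (fin p (res T ω) x c))}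
        ≤ (1 - sg p y M) + j * η + (1 - sg p 0 y) ^ j := by
  intro j
  induction j with
  | zero =>
    intro x c _ _ _
    have := sg_le_one hp y M
    simp only [Nat.cast_zero, zero_mul, add_zero, pow_zero]
    have h2 : μ.real {ω | ¬ (X ≤ fin p (res T ω) x c ∧ Sv p M (res T ω) (fin p (res T ω) x c))} ≤ 1 :=
      measureReal_le_one
    linarith
  | succ j ih =>
    intro x c hXx hxc hxL
    set β : ℝ := (1 - sg p y M) + j * η + (1 - sg p 0 y) ^ j with hβ
    have hs0 := sg_pos hp 0 y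
    have hs1 := sg_le_one hp 0 y
    have hs2 := sg_le_one hp y M
    have hs3 := sg_pos hp y M
    have hβ0 : 0 ≤ β := by
      have : 0 ≤ (1 - sg p 0 y) ^ j := pow_nonneg (by linarith) _
      positivity
    have hyG : y + G ≤ x := by
      have : y + G ≤ (j + 1) * (y + G) := Nat.le_mul_of_pos_left _ (by omega)
      omega
    have hX : X ≤ x := by omega
    have hxM : x ≤ M := hxL.trans hLM
    have hsub : {ω | ¬ (X ≤ fin p (res T ω) x c ∧ Sv p M (res T ω) (fin p (res T ω) x c))} ⊆
        {ω | (fun i => T i ω) ∈ E1 p M c y} ∪ ({ω | (fun i => T i ω) ∈ E2 p c x y G} ∪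
          ⋃ ig ∈ range y ×ˢ Ico 2 G, {ω | (fun i => T i ω) ∈ KS p c x y ig.1 ig.2 ∧
            (fun i => T i ω) ∈ BS p M X (x - ig.1 - ig.2) (c + 1 - ig.2)}) := by
      intro ω hω
      have := decomp (p := p) (M := M) (X := X) (x := x) (c := c) (y := y) (G := G) hX hxc hxM hyG
        (show (fun i => T i ω) ∈ BS p M X x c from hω)
      rcases this with h1 | h1 | h1
      · left; exact h1
      · right; left; exact h1
      · right; right
        simp only [Set.mem_iUnion] at h1 ⊢
        obtain ⟨ig, hig, h2⟩ := h1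
        exact ⟨ig, hig, h2.1, h2.2⟩
    have hE1 : μ.real {ω | (fun i => T i ω) ∈ E1 p M c y} = sg p 0 y * (1 - sg p y M) :=
      prob_gap h p c y M
    have hE2 : μ.real {ω | (fun i => T i ω) ∈ E2 p c x y G} ≤ η := hE x c hxL (by omega)
    have hpart : ∀ ig ∈ range y ×ˢ Ico 2 G,
        μ.real {ω | (fun i => T i ω) ∈ KS p c x y ig.1 ig.2 ∧
            (fun i => T i ω) ∈ BS p M X (x - ig.1 - ig.2) (c + 1 - ig.2)}
        ≤ μ.real {ω | (fun i => T i ω) ∈ KS p c x y ig.1 ig.2} * β := by
      intro ig hig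
      simp only [mem_product, mem_range, mem_Ico] at hig
      have hdis : Disjoint (({c} : Finset ℕ) ×ˢ range (M + 1))
          (range (c + 1 - ig.2 + 1) ×ˢ range (M + 1)) := by
        rw [Finset.disjoint_left]
        rintro ⟨a, b⟩ h1 h2
        simp only [mem_product, mem_singleton, mem_range] at h1 h2
        omega
      have hdB : Dep (range (c + 1 - ig.2 + 1) ×ˢ range (M + 1))
          (BS p M X (x - ig.1 - ig.2) (c + 1 - ig.2)) :=
        dep_bad p (x - ig.1 - ig.2) (c + 1 - ig.2) M X (by omega)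
      rw [dep_indep h.meas h.indep hdis (dep_KS (i := ig.1) (g := ig.2) hxM (by omega)) hdB]
      apply mul_le_mul_of_nonneg_left _ measureReal_nonneg
      apply ih
      · have : X + (j + 1) * (y + G) ≤ x := hXx
        have e : (j + 1) * (y + G) = j * (y + G) + (y + G) := by ring
        omega
      · omega
      · omega
    calc μ.real {ω | ¬ (X ≤ fin p (res T ω) x c ∧ Sv p M (res T ω) (fin p (res T ω) x c))}
        ≤ μ.real ({ω | (fun i => T i ω) ∈ E1 p M c y} ∪ ({ω | (fun i => T i ω) ∈ E2 p c x y G} ∪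
          ⋃ ig ∈ range y ×ˢ Ico 2 G, {ω | (fun i => T i ω) ∈ KS p c x y ig.1 ig.2 ∧
            (fun i => T i ω) ∈ BS p M X (x - ig.1 - ig.2) (c + 1 - ig.2)})) :=
          measureReal_mono hsub (measure_ne_top _ _)
      _ ≤ μ.real {ω | (fun i => T i ω) ∈ E1 p M c y} + (μ.real {ω | (fun i => T i ω) ∈ E2 p c x y G}
          + ∑ ig ∈ range y ×ˢ Ico 2 G, μ.real {ω | (fun i => T i ω) ∈ KS p c x y ig.1 ig.2 ∧
            (fun i => T i ω) ∈ BS p M X (x - ig.1 - ig.2) (c + 1 - ig.2)}) := by
          refine (measureReal_union_le _ _).trans (add_le_add_right ?_ _)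
          refine (measureReal_union_le _ _).trans (add_le_add_right ?_ _)
          exact measureReal_biUnion_finset_le _ _
      _ ≤ sg p 0 y * (1 - sg p y M) + (η + ∑ ig ∈ range y ×ˢ Ico 2 G,
            μ.real {ω | (fun i => T i ω) ∈ KS p c x y ig.1 ig.2} * β) := by
          rw [hE1]
          gcongr with ig hig
          exact hpart ig hig
      _ ≤ sg p 0 y * (1 - sg p y M) + (η + (1 - sg p 0 y) * β) := by
          rw [← Finset.sum_mul]
          gcongr
          exact sum_KS h hxM (by omega)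
      _ ≤ (1 - sg p y M) + (j + 1 : ℕ) * η + (1 - sg p 0 y) ^ (j + 1) := by
          rw [hβ]
          push_cast
          have e1 : (1 - sg p 0 y) ^ (j + 1) = (1 - sg p 0 y) * (1 - sg p 0 y) ^ j := by ring
          rw [e1]
          have e2 : 0 ≤ sg p 0 y * (j * η) := by positivity
          nlinarith [e2]

end Pool.Agent.L5helper32.GR
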