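import Pool.Agent.L5helper32.GR.Roots
import Pool.Agent.L5helper64.GRFive
import Pool.Agent.L5helper78.GRFive

/-!
# The gcd recursion with random residues: roots of `q_p` for the large primes (jobs GS12, GS13)
-/

set_option autoImplicit false

open Finset MeasureTheory ProbabilityTheory

namespace Pool.Agent.L5helper32.GR

/-- The large primes `r` for which `q_p` vanishes at the residue: there is one with probability at
least `c`. -/
theorem q_root {p : ℕ} (hp : p.Prime) (h5 : 5 ≤ p) : ∃ c : ℝ, 0 < c ∧ ∃ z₁ : ℕ, ∀ z ≥ z₁,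
    ∀ {Ω : Type} [MeasurableSpace Ω] (μ : Measure Ω) [IsProbabilityMeasure μ]
      (T : ℕ × ℕ → Ω → ℕ), Res μ T → ∀ n, lev p z ≤ 4 * n →
      c ≤ μ.real {ω | ∃ r, r.Prime ∧ lev p z + 2 < r ∧ r ^ 2 ≤ q p n ∧ r ∣ q p (res T ω n r)} := by
  obtain ⟨c', hc', N, hN⟩ := GRFive.sum_lower (p := p) (by omega)
  refine ⟨1 - Real.exp (-c'), by
    have := (Real.exp_lt_exp.2 (neg_lt_zero.2 hc')).trans_eq Real.exp_zero
    linarith,
    4 * N + 1, ?_⟩
  intro z hz Ω _ μ _ T hT n hn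
  have hzL : z ≤ lev p z := by unfold lev; omega
  have h1 := GRFive.prob_ex hT hp n (lev p z + 2) (n ^ 2)
  have h2 := hN n (by omega) (lev p z) hn
  have h3 : Real.exp (-∑ r ∈ GRFive.R p (lev p z + 2) (n ^ 2), (1 : ℝ) / r) ≤ Real.exp (-c') :=
    Real.exp_le_exp.2 (neg_le_neg h2)
  have hsub : {ω | ∃ r ∈ GRFive.R p (lev p z + 2) (n ^ 2), r ∣ q p (T (n, r) ω)} ⊆
      {ω | ∃ r, r.Prime ∧ lev p z + 2 < r ∧ r ^ 2 ≤ q p n ∧ r ∣ q p (res T ω n r)} := by
    rintro ω ⟨r, hr, hrq⟩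
    have hr' := Finset.mem_filter.1 hr
    have hrn : r ≤ n ^ 2 := (Finset.mem_Ioc.1 hr'.1).2
    have hrL : lev p z + 2 < r := (Finset.mem_Ioc.1 hr'.1).1
    have hnpos : 1 ≤ n := by omega
    refine ⟨r, hr'.2.1, hrL, ?_, hrq⟩
    calc r ^ 2 ≤ (n ^ 2) ^ 2 := Nat.pow_le_pow_left hrn 2
      _ = n ^ 4 := by ring
      _ ≤ n ^ (p - 1) := Nat.pow_le_pow_right hnpos (by omega)
      _ ≤ q p n := GRFive.le_q (by omega) n
  have h4 := measureReal_mono (μ := μ) hsub
  linarith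

/-- And there is no root with probability at least `c`. -/
theorem q_noroot {p : ℕ} (hp : p.Prime) : ∃ c : ℝ, 0 < c ∧ ∃ z₁ : ℕ, ∀ z ≥ z₁,
    ∀ {Ω : Type} [MeasurableSpace Ω] (μ : Measure Ω) [IsProbabilityMeasure μ]
      (T : ℕ × ℕ → Ω → ℕ), Res μ T → ∀ n, n ≤ lev p z →
      c ≤ μ.real {ω | ∀ r, r.Prime → lev p z + 2 < r → r ^ 2 ≤ q p n →
        ¬ Root p r (res T ω n r)} := by
  obtain ⟨c, hc, hprod⟩ := Pool.Agent.L5helper64.GRFive.prod_lower hp (fun r hr => w_le hp hr)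
  refine ⟨c, hc, 2 * p, fun z hz Ω _ μ _ T hT n hn => ?_⟩
  have hzL : z ≤ lev p z := by unfold lev; omega
  have hp2 := hp.two_le
  have h1 := prob_none (μ := μ) hT p n (pr (lev p z + 2) ((lev p z + 2) ^ p)) (by
    intro r hr
    unfold pr at hr
    exact (Finset.mem_filter.1 hr).2)
  have h2 := hprod (lev p z + 2) (by omega)
  have hsub : {ω | ∀ r ∈ pr (lev p z + 2) ((lev p z + 2) ^ p), ¬ Root p r (res T ω n r)} ⊆
      {ω | ∀ r, r.Prime → lev p z + 2 < r → r ^ 2 ≤ q p n → ¬ Root p r (res T ω n r)} := by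
    intro ω hω r hr hrL hrq
    refine hω r ?_
    unfold pr
    rw [Finset.mem_filter, Finset.mem_Ioc]
    refine ⟨⟨hrL, ?_⟩, hr⟩
    rcases Nat.eq_zero_or_pos n with h0 | h0
    · subst h0
      exfalso
      have e1 : q p 0 = p := by
        have h3 : ∀ k ∈ Icc 1 p, k ≠ 1 → p.choose k * 0 ^ (k - 1) = 0 := by
          intro k hk hk1
          have : k - 1 ≠ 0 := by
            have := (Finset.mem_Icc.1 hk).1
            omega
          rw [zero_pow this, mul_zero]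
        unfold q
        rw [Finset.sum_eq_single_of_mem 1 (Finset.mem_Icc.2 ⟨le_rfl, by omega⟩) h3]
        simp
      rw [e1] at hrq
      have h4 : r ≤ r ^ 2 := Nat.le_self_pow (by norm_num) r
      omega
    · calc r ≤ r ^ 2 := Nat.le_self_pow (by norm_num) r
        _ ≤ q p n := hrq
        _ ≤ (n + 1) ^ p := Pool.Agent.L5helper64.GRFive.q_le p h0
        _ ≤ _ := Nat.pow_le_pow_left (by omega) p
  have h4 := measureReal_mono (μ := μ) hsub
  linarith

end Pool.Agent.L5helper32.GR
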